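import Mathlib

/-!
# MP_2fbd40_lc: the `n`-ary contact is not first-order definable

For `n ≥ 3` no first-order formula of the language of contact algebras defines the `n`-ary contact,
not even on the class of the compact semiregular `T0` spaces in which every clan is the clan of a
point.
-/

namespace Pool.Agent.Results.MP_2fbd40_lc.NaryContactUndefinable

open FirstOrder Language Set Filter

/-! ## Definitions -/

/-- Function symbols of the language of contact algebras. -/
inductive CaFn : ℕ → Type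
  | zero : CaFn 0
  | one : CaFn 0
  | mul : CaFn 2
  | add : CaFn 2
  | star : CaFn 1

/-- The relation symbol `C`. -/
inductive CaRel : ℕ → Type
  | contact : CaRel 2

/-- The language of contact algebras. -/
def Lca : FirstOrder.Language.{0, 0} := ⟨CaFn, CaRel⟩

/-- The regular closed subsets of `X`. -/
def RC (X : Type) [TopologicalSpace X] : Type := {a : Set X // a = closure (interior a)}

theorem regClosed_closure_of_isOpen {X : Type} [TopologicalSpace X] {U : Set X} (hU : IsOpen U) :
    closure U = closure (interior (closure U)) := by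
  apply subset_antisymm
  · exact closure_mono (interior_maximal subset_closure hU)
  · exact closure_minimal interior_subset isClosed_closure

theorem RC.isClosed {X : Type} [TopologicalSpace X] (a : RC X) : IsClosed a.1 := by
  rw [a.2]; exact isClosed_closure

theorem regClosed_union {X : Type} [TopologicalSpace X] (a b : RC X) :
    a.1 ∪ b.1 = closure (interior (a.1 ∪ b.1)) := by
  apply subset_antisymm
  · apply union_subset
    · conv_lhs => rw [a.2]
      exact closure_mono (interior_mono subset_union_left)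
    · conv_lhs => rw [b.2]
      exact closure_mono (interior_mono subset_union_right)
  · exact closure_minimal interior_subset (a.isClosed.union b.isClosed)

/-- The standard contact algebra of the regular closed subsets of `X`. -/
@[reducible]
def rcStructure (X : Type) [TopologicalSpace X] : Lca.Structure (RC X) where
  funMap := fun {_} f v => match f, v with
    | .zero, _ => ⟨∅, by simp⟩
    | .one, _ => ⟨univ, by simp⟩
    | .mul, v => ⟨closure (interior ((v 0).1 ∩ (v 1).1)),
        regClosed_closure_of_isOpen isOpen_interior⟩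
    | .add, v => ⟨(v 0).1 ∪ (v 1).1, regClosed_union _ _⟩
    | .star, v => ⟨closure ((v 0).1)ᶜ, regClosed_closure_of_isOpen (v 0).isClosed.isOpen_compl⟩
  RelMap := fun {_} r v => match r, v with
    | .contact, v => ((v 0).1 ∩ (v 1).1).Nonempty

/-- The formula `φ` defines the `n`-ary contact in `X`. -/
def DefinesContact (n : ℕ) (φ : Lca.Formula (Fin n)) (X : Type) [TopologicalSpace X] : Prop :=
  ∀ a : Fin n → RC X, @Formula.Realize Lca (RC X) (rcStructure X) (Fin n) φ a ↔
    (⋂ i, (a i).1).Nonempty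

/-- A clan of the contact algebra `RC X`. -/
structure IsClan (X : Type) [TopologicalSpace X] (Γ : Set (RC X)) : Prop where
  one_mem : ∀ a : RC X, a.1 = univ → a ∈ Γ
  up : ∀ a ∈ Γ, ∀ b : RC X, a.1 ⊆ b.1 → b ∈ Γ
  prime : ∀ a b c : RC X, c ∈ Γ → c.1 = a.1 ∪ b.1 → a ∈ Γ ∨ b ∈ Γ
  contact : ∀ a ∈ Γ, ∀ b ∈ Γ, (a.1 ∩ b.1).Nonempty

/-- Every clan of `RC X` is the clan of a point. -/
def EveryClanIsPoint (X : Type) [TopologicalSpace X] : Prop :=
  ∀ Γ : Set (RC X), IsClan X Γ → ∃ x : X, Γ = {a | x ∈ a.1}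

/-- The regular closed sets form a base of closed sets. -/
def IsSemiregular (X : Type) [TopologicalSpace X] : Prop :=
  ∀ (F : Set X) (x : X), IsClosed F → x ∉ F → ∃ a : RC X, F ⊆ a.1 ∧ x ∉ a.1

/-! ## Power set contact algebras -/

/-- The contact algebra of all subsets of `V` with the contact induced by a relation. -/
@[reducible]
def psStructure {V : Type} (E : V → V → Prop) : Lca.Structure (Set V) where
  funMap := fun {_} f v => match f, v with
    | .zero, _ => ∅
    | .one, _ => univ
    | .mul, v => v 0 ∩ v 1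
    | .add, v => v 0 ∪ v 1
    | .star, v => (v 0)ᶜ
  RelMap := fun {_} r v => match r, v with
    | .contact, v => ∃ a ∈ v 0, ∃ b ∈ v 1, E a b

/-- Clans of the power set contact algebra. -/
structure PClan {V : Type} (E : V → V → Prop) (Γ : Set (Set V)) : Prop where
  one_mem : univ ∈ Γ
  up : ∀ S ∈ Γ, ∀ T, S ⊆ T → T ∈ Γ
  prime : ∀ S T, S ∪ T ∈ Γ → S ∈ Γ ∨ T ∈ Γ
  contact : ∀ S ∈ Γ, ∀ T ∈ Γ, ∃ a ∈ S, ∃ b ∈ T, E a b

theorem PClan.empty_notMem {V : Type} {E : V → V → Prop} {Γ : Set (Set V)} (h : PClan E Γ) :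
    ∅ ∉ Γ := by
  intro h0
  obtain ⟨a, ha, _⟩ := h.contact ∅ h0 ∅ h0
  exact ha

/-- The clan space. -/
def CS {V : Type} (E : V → V → Prop) : Type := {Γ : Set (Set V) // PClan E Γ}

/-- Basic closed sets. -/
def hs {V : Type} (E : V → V → Prop) (S : Set V) : Set (CS E) := {Γ | S ∈ Γ.1}

instance {V : Type} (E : V → V → Prop) : TopologicalSpace (CS E) where
  IsOpen U := ∀ Γ ∈ U, ∃ S, S ∉ Γ.1 ∧ ∀ Δ : CS E, S ∉ Δ.1 → Δ ∈ U
  isOpen_univ := fun Γ _ => ⟨∅, Γ.2.empty_notMem, fun _ _ => trivial⟩
  isOpen_inter := by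
    intro U W hU hW Γ hΓ
    obtain ⟨S, hS, hS'⟩ := hU Γ hΓ.1
    obtain ⟨T, hT, hT'⟩ := hW Γ hΓ.2
    refine ⟨S ∪ T, fun h => (Γ.2.prime S T h).elim hS hT, fun Δ hΔ => ⟨?_, ?_⟩⟩
    · exact hS' Δ (fun h => hΔ (Δ.2.up S h _ subset_union_left))
    · exact hT' Δ (fun h => hΔ (Δ.2.up T h _ subset_union_right))
  isOpen_sUnion := by
    intro 𝒰 h𝒰 Γ hΓ
    obtain ⟨U, hU, hΓU⟩ := hΓ
    obtain ⟨S, hS, hS'⟩ := h𝒰 U hU Γ hΓU
    exact ⟨S, hS, fun Δ hΔ => ⟨U, hU, hS' Δ hΔ⟩⟩

section ClanSpace

variable {V : Type} {E : V → V → Prop}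

theorem isOpen_def {U : Set (CS E)} :
    IsOpen U ↔ ∀ Γ ∈ U, ∃ S, S ∉ Γ.1 ∧ ∀ Δ : CS E, S ∉ Δ.1 → Δ ∈ U := Iff.rfl

theorem isClosed_hs (S : Set V) : IsClosed (hs E S) := by
  rw [← isOpen_compl_iff, isOpen_def]
  intro Γ hΓ
  exact ⟨S, hΓ, fun Δ hΔ => hΔ⟩

/-- The clan of a pair of adjacent points. -/
def pairClan (hr : ∀ a, E a a) (hsym : ∀ a b, E a b → E b a) {u v : V} (h : E u v) : CS E :=
  ⟨{S | u ∈ S ∨ v ∈ S},
    { one_mem := Or.inl trivial
      up := fun S hS T hST => hS.imp (fun h => hST h) (fun h => hST h)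
      prime := by
        rintro S T ((h | h) | (h | h))
        · exact Or.inl (Or.inl h)
        · exact Or.inr (Or.inl h)
        · exact Or.inl (Or.inr h)
        · exact Or.inr (Or.inr h)
      contact := by
        rintro S (hS | hS) T (hT | hT)
        · exact ⟨u, hS, u, hT, hr u⟩
        · exact ⟨u, hS, v, hT, h⟩
        · exact ⟨v, hS, u, hT, hsym _ _ h⟩
        · exact ⟨v, hS, v, hT, hr v⟩ }⟩

theorem closure_eq (hr : ∀ a, E a a) (hsym : ∀ a b, E a b → E b a) {U : Set (CS E)}
    (hU : IsOpen U) : closure U = hs E {v | pairClan hr hsym (hr v) ∈ U} := by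
  set S := {v | pairClan hr hsym (hr v) ∈ U} with hS
  apply subset_antisymm
  · apply closure_minimal _ (isClosed_hs S)
    intro Γ hΓ
    obtain ⟨T, hT, hT'⟩ := (isOpen_def.mp hU) Γ hΓ
    have h1 : S ∪ T ∈ Γ.1 := by
      refine Γ.2.up _ Γ.2.one_mem _ ?_
      intro v _
      by_cases hv : v ∈ T
      · exact Or.inr hv
      · left
        apply hT'
        rintro (h | h) <;> exact hv h
    exact (Γ.2.prime S T h1).resolve_right hT
  · intro Γ hΓ
    rw [mem_closure_iff]
    intro W hW hΓW
    obtain ⟨T, hT, hT'⟩ := (isOpen_def.mp hW) Γ hΓW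
    have : ¬ S ⊆ T := fun h => hT (Γ.2.up S hΓ T h)
    obtain ⟨v, hv, hvT⟩ := not_subset.mp this
    refine ⟨pairClan hr hsym (hr v), hT' _ ?_, hv⟩
    rintro (h | h) <;> exact hvT h

theorem interior_hs (hr : ∀ a, E a a) (hsym : ∀ a b, E a b → E b a) (S : Set V) (v : V) :
    pairClan hr hsym (hr v) ∈ interior (hs E S) ↔ v ∈ S := by
  constructor
  · intro h
    have := interior_subset h
    rcases this with h | h <;> exact h
  · intro h
    rw [mem_interior]
    refine ⟨(hs E Sᶜ)ᶜ, ?_, (isClosed_hs _).isOpen_compl, ?_⟩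
    · intro Γ hΓ
      have h1 : S ∪ Sᶜ ∈ Γ.1 := by rw [union_compl_self]; exact Γ.2.one_mem
      exact (Γ.2.prime _ _ h1).resolve_right hΓ
    · rintro (h' | h') <;> exact h' h

theorem regClosed_hs (hr : ∀ a, E a a) (hsym : ∀ a b, E a b → E b a) (S : Set V) :
    hs E S = closure (interior (hs E S)) := by
  rw [closure_eq hr hsym isOpen_interior]
  congr 1
  ext v
  exact (interior_hs hr hsym S v).symm

/-- The isomorphism of the power set algebra with the algebra of regular closed sets. -/
def toRC (hr : ∀ a, E a a) (hsym : ∀ a b, E a b → E b a) (S : Set V) : RC (CS E) :=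
  ⟨hs E S, regClosed_hs hr hsym S⟩

theorem mem_pair_hs (hr : ∀ a, E a a) (hsym : ∀ a b, E a b → E b a) (S : Set V) (v : V) :
    pairClan hr hsym (hr v) ∈ hs E S ↔ v ∈ S := by
  constructor
  · rintro (h | h) <;> exact h
  · intro h; exact Or.inl h

theorem toRC_injective (hr : ∀ a, E a a) (hsym : ∀ a b, E a b → E b a) :
    Function.Injective (toRC hr hsym) := by
  intro S T h
  ext v
  have h1 : hs E S = hs E T := congrArg Subtype.val h
  rw [← mem_pair_hs hr hsym S v, h1, mem_pair_hs]

theorem toRC_surjective (hr : ∀ a, E a a) (hsym : ∀ a b, E a b → E b a) :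
    Function.Surjective (toRC hr hsym) := by
  intro a
  refine ⟨{v | pairClan hr hsym (hr v) ∈ interior a.1}, ?_⟩
  apply Subtype.ext
  change hs E _ = a.1
  rw [← closure_eq hr hsym isOpen_interior, ← a.2]

/-- A regular closed set is determined by its points `v`. -/
theorem eq_of_interior (hr : ∀ a, E a a) (hsym : ∀ a b, E a b → E b a) {U : Set (CS E)}
    (hU : IsOpen U) {S : Set V} (h : ∀ v, pairClan hr hsym (hr v) ∈ U ↔ v ∈ S) :
    closure U = hs E S := by
  rw [closure_eq hr hsym hU]
  congr 1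
  ext v
  exact h v

/-- The isomorphism of structures. -/
noncomputable def isoRC (hr : ∀ a, E a a) (hsym : ∀ a b, E a b → E b a) :
    @FirstOrder.Language.Equiv Lca (Set V) (RC (CS E)) (psStructure E) (rcStructure (CS E)) :=
  let _ := psStructure E
  let _ := rcStructure (CS E)
  { Equiv.ofBijective (toRC hr hsym) ⟨toRC_injective hr hsym, toRC_surjective hr hsym⟩ with
    map_fun' := by
      intro n f x
      apply Subtype.ext
      cases f with
      | zero =>
        change hs E ∅ = ∅
        ext Γ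
        exact ⟨fun h => Γ.2.empty_notMem h, fun h => h.elim⟩
      | one =>
        change hs E univ = univ
        ext Γ
        exact ⟨fun _ => trivial, fun _ => Γ.2.one_mem⟩
      | mul =>
        change hs E (x 0 ∩ x 1) = closure (interior (hs E (x 0) ∩ hs E (x 1)))
        symm
        apply eq_of_interior hr hsym isOpen_interior
        intro v
        rw [interior_inter, mem_inter_iff, interior_hs, interior_hs]
        rfl
      | add =>
        change hs E (x 0 ∪ x 1) = hs E (x 0) ∪ hs E (x 1)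
        ext Γ
        constructor
        · intro h; exact Γ.2.prime _ _ h
        · rintro (h | h)
          · exact Γ.2.up _ h _ subset_union_left
          · exact Γ.2.up _ h _ subset_union_right
      | star =>
        change hs E (x 0)ᶜ = closure (hs E (x 0))ᶜ
        symm
        apply eq_of_interior hr hsym (isClosed_hs _).isOpen_compl
        intro v
        rw [mem_compl_iff, mem_pair_hs]
        rfl
    map_rel' := by
      intro n r x
      cases r with
      | contact =>
        change ((hs E (x 0)) ∩ (hs E (x 1))).Nonempty ↔ ∃ a ∈ x 0, ∃ b ∈ x 1, E a b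
        constructor
        · rintro ⟨Γ, h0, h1⟩
          exact Γ.2.contact _ h0 _ h1
        · rintro ⟨a, ha, b, hb, hab⟩
          exact ⟨pairClan hr hsym hab, Or.inl ha, Or.inr hb⟩ }

theorem hs_mono {S T : Set V} (h : S ⊆ T) : hs E S ⊆ hs E T := fun Γ hΓ => Γ.2.up S hΓ T h

theorem hs_union (S T : Set V) : hs E (S ∪ T) = hs E S ∪ hs E T := by
  ext Γ
  constructor
  · intro h; exact Γ.2.prime _ _ h
  · rintro (h | h)
    · exact Γ.2.up _ h _ subset_union_left
    · exact Γ.2.up _ h _ subset_union_right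

theorem hs_univ : hs E univ = univ := by
  ext Γ
  exact ⟨fun _ => trivial, fun _ => Γ.2.one_mem⟩

instance : CompactSpace (CS E) := by
  constructor
  rw [isCompact_iff_ultrafilter_le_nhds]
  intro W _
  let Γ : CS E := ⟨{S | hs E S ∈ W},
    { one_mem := by
        change hs E univ ∈ W
        rw [hs_univ]; exact univ_mem
      up := fun S hS T hST => mem_of_superset hS (hs_mono hST)
      prime := by
        intro S T h
        change hs E (S ∪ T) ∈ W at h
        rw [hs_union] at h
        exact Ultrafilter.union_mem_iff.mp h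
      contact := by
        intro S hS T hT
        obtain ⟨Δ, h1, h2⟩ := W.nonempty_of_mem (inter_mem hS hT)
        exact Δ.2.contact S h1 T h2 }⟩
  refine ⟨Γ, trivial, ?_⟩
  intro U hU
  obtain ⟨U', hU', hUo, hΓU⟩ := mem_nhds_iff.mp hU
  obtain ⟨S, hS, hS'⟩ := (isOpen_def.mp hUo) Γ hΓU
  have h1 : (hs E S)ᶜ ∈ W := Ultrafilter.compl_mem_iff_notMem.mpr hS
  exact mem_of_superset h1 (fun Δ hΔ => hU' (hS' Δ hΔ))

instance : T0Space (CS E) := by
  constructor
  intro Γ Δ h
  apply Subtype.ext
  ext S
  exact h.mem_closed_iff (isClosed_hs S)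

theorem semiregular_CS (hr : ∀ a, E a a) (hsym : ∀ a b, E a b → E b a) : IsSemiregular (CS E) := by
  intro F x hF hx
  obtain ⟨S, hS, hS'⟩ := (isOpen_def.mp hF.isOpen_compl) x hx
  refine ⟨toRC hr hsym S, ?_, hS⟩
  intro Δ hΔ
  by_contra hc
  exact hS' Δ hc hΔ

theorem everyClan_CS (hr : ∀ a, E a a) (hsym : ∀ a b, E a b → E b a) :
    EveryClanIsPoint (CS E) := by
  intro Γ hΓ
  let Δ : CS E := ⟨{S | toRC hr hsym S ∈ Γ},
    { one_mem := hΓ.one_mem _ hs_univ
      up := fun S hS T hST => hΓ.up _ hS _ (hs_mono hST)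
      prime := fun S T h => hΓ.prime _ _ _ h (hs_union S T)
      contact := by
        intro S hS T hT
        obtain ⟨Δ, h1, h2⟩ := hΓ.contact _ hS _ hT
        exact Δ.2.contact S h1 T h2 }⟩
  refine ⟨Δ, ?_⟩
  ext a
  obtain ⟨S, rfl⟩ := toRC_surjective hr hsym a
  exact Iff.rfl

/-- In the clan space a formula defines the `n`-ary contact only if it says that there is a clan
containing the given sets. -/
theorem defines_iff (hr : ∀ a, E a a) (hsym : ∀ a b, E a b → E b a) {n : ℕ}
    {φ : Lca.Formula (Fin n)} (h : DefinesContact n φ (CS E)) (S : Fin n → Set V) :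
    @Formula.Realize Lca (Set V) (psStructure E) (Fin n) φ S ↔ ∃ Γ : CS E, ∀ i, S i ∈ Γ.1 := by
  let _ := psStructure E
  let _ := rcStructure (CS E)
  have h1 := h (fun i => toRC hr hsym (S i))
  have h2 : φ.Realize ((isoRC hr hsym) ∘ S) ↔ φ.Realize S :=
    StrongHomClass.realize_formula (isoRC hr hsym) φ
  rw [← h2]
  refine Iff.trans h1 ?_
  constructor
  · rintro ⟨Γ, hΓ⟩
    exact ⟨Γ, fun i => mem_iInter.mp hΓ i⟩
  · rintro ⟨Γ, hΓ⟩
    exact ⟨Γ, mem_iInter.mpr hΓ⟩

end ClanSpace

/-! ## Disjoint sums -/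

/-- The section of a subset of `I × V` at `i`. -/
def sec {I V : Type} (i : I) (S : Set (I × V)) : Set V := {u | (i, u) ∈ S}

/-- The disjoint sum of relations. -/
def Esum {I V : Type} (E : I → V → V → Prop) : I × V → I × V → Prop :=
  fun p q => p.1 = q.1 ∧ E p.1 p.2 q.2

/-- Terms are computed sectionwise. -/
theorem sec_realize {I V β : Type} (E : I → V → V → Prop) (t : Lca.Term β)
    (w : β → Set (I × V)) (i : I) (e : V → V → Prop) :
    sec i (@Term.realize Lca (Set (I × V)) (psStructure (Esum E)) β w t) =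
      @Term.realize Lca (Set V) (psStructure e) β (fun b => sec i (w b)) t := by
  induction t with
  | var b => rfl
  | func f ts ih =>
    cases f with
    | zero => rfl
    | one => rfl
    | mul => exact congrArg₂ (fun A B : Set V => A ∩ B) (ih 0) (ih 1)
    | add => exact congrArg₂ (fun A B : Set V => A ∪ B) (ih 0) (ih 1)
    | star => exact congrArg (fun A : Set V => Aᶜ) (ih 0)

theorem ext_sec {I V : Type} {S T : Set (I × V)} (h : ∀ i, sec i S = sec i T) : S = T := by
  ext ⟨i, u⟩
  have := h i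
  exact Set.ext_iff.mp this u

theorem sec_comp {I V α : Type} {n : ℕ} (i : I) (v : α → Set (I × V)) (xs : Fin n → Set (I × V)) :
    (fun b => sec i (Sum.elim v xs b)) =
      Sum.elim (fun a => sec i (v a)) (fun a => sec i (xs a)) := by
  funext b
  cases b <;> rfl

/-- The composition theorem: the truth of a formula in a disjoint sum only depends on finitely
valued invariants of the summands. -/
theorem composition {V α : Type} {n : ℕ} (φ : Lca.BoundedFormula α n) :
    ∃ (Q : Type) (_ : Finite Q) (q : (V → V → Prop) → (α → Set V) → (Fin n → Set V) → Q),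
      ∀ (I : Type) (E E' : I → V → V → Prop) (v v' : α → Set (I × V))
        (xs xs' : Fin n → Set (I × V)),
        (∀ i, q (E i) (fun a => sec i (v a)) (fun a => sec i (xs a)) =
          q (E' i) (fun a => sec i (v' a)) (fun a => sec i (xs' a))) →
        (@BoundedFormula.Realize Lca (Set (I × V)) (psStructure (Esum E)) α n φ v xs ↔
          @BoundedFormula.Realize Lca (Set (I × V)) (psStructure (Esum E')) α n φ v' xs') := by
  induction φ with
  | falsum => exact ⟨Unit, inferInstance, fun _ _ _ => (), fun _ _ _ _ _ _ _ _ => Iff.rfl⟩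
  | equal t₁ t₂ =>
    refine ⟨Prop, inferInstance, fun e v xs =>
      @Term.realize Lca (Set V) (psStructure e) _ (Sum.elim v xs) t₁ =
        @Term.realize Lca (Set V) (psStructure e) _ (Sum.elim v xs) t₂, ?_⟩
    intro I E E' v v' xs xs' h
    have key : ∀ (E : I → V → V → Prop) (v : α → Set (I × V)) (xs : Fin _ → Set (I × V)),
        (@Term.realize Lca (Set (I × V)) (psStructure (Esum E)) _ (Sum.elim v xs) t₁ =
          @Term.realize Lca (Set (I × V)) (psStructure (Esum E)) _ (Sum.elim v xs) t₂) ↔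
        ∀ i, @Term.realize Lca (Set V) (psStructure (E i)) _
            (Sum.elim (fun a => sec i (v a)) (fun a => sec i (xs a))) t₁ =
          @Term.realize Lca (Set V) (psStructure (E i)) _
            (Sum.elim (fun a => sec i (v a)) (fun a => sec i (xs a))) t₂ := by
      intro E v xs
      constructor
      · intro h i
        rw [← sec_comp, ← sec_realize E t₁ _ i (E i), ← sec_realize E t₂ _ i (E i), h]
      · intro h
        apply ext_sec
        intro i
        rw [sec_realize E t₁ _ i (E i), sec_realize E t₂ _ i (E i), sec_comp]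
        exact h i
    refine Iff.trans (key E v xs) (Iff.trans ?_ (key E' v' xs').symm)
    exact forall_congr' fun i => iff_of_eq (h i)
  | rel R ts =>
    cases R with
    | contact =>
      refine ⟨Prop, inferInstance, fun e v xs =>
        ∃ a ∈ @Term.realize Lca (Set V) (psStructure e) _ (Sum.elim v xs) (ts 0),
          ∃ b ∈ @Term.realize Lca (Set V) (psStructure e) _ (Sum.elim v xs) (ts 1), e a b, ?_⟩
      intro I E E' v v' xs xs' h
      have key : ∀ (E : I → V → V → Prop) (v : α → Set (I × V)) (xs : Fin _ → Set (I × V)),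
          (∃ a ∈ @Term.realize Lca (Set (I × V)) (psStructure (Esum E)) _ (Sum.elim v xs) (ts 0),
            ∃ b ∈ @Term.realize Lca (Set (I × V)) (psStructure (Esum E)) _ (Sum.elim v xs) (ts 1),
              Esum E a b) ↔
          ∃ i, ∃ a ∈ @Term.realize Lca (Set V) (psStructure (E i)) _
              (Sum.elim (fun a => sec i (v a)) (fun a => sec i (xs a))) (ts 0),
            ∃ b ∈ @Term.realize Lca (Set V) (psStructure (E i)) _
              (Sum.elim (fun a => sec i (v a)) (fun a => sec i (xs a))) (ts 1), E i a b := by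
        intro E v xs
        constructor
        · rintro ⟨⟨i, a⟩, ha, ⟨j, b⟩, hb, hij, hab⟩
          change i = j at hij
          subst hij
          refine ⟨i, a, ?_, b, ?_, hab⟩
          · rw [← sec_comp, ← sec_realize E (ts 0) _ i (E i)]; exact ha
          · rw [← sec_comp, ← sec_realize E (ts 1) _ i (E i)]; exact hb
        · rintro ⟨i, a, ha, b, hb, hab⟩
          rw [← sec_comp, ← sec_realize E (ts 0) _ i (E i)] at ha
          rw [← sec_comp, ← sec_realize E (ts 1) _ i (E i)] at hb
          exact ⟨(i, a), ha, (i, b), hb, rfl, hab⟩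
      refine Iff.trans (key E v xs) (Iff.trans ?_ (key E' v' xs').symm)
      exact exists_congr fun i => iff_of_eq (h i)
  | imp φ ψ ih₁ ih₂ =>
    obtain ⟨Q₁, _, q₁, h₁⟩ := ih₁
    obtain ⟨Q₂, _, q₂, h₂⟩ := ih₂
    refine ⟨Q₁ × Q₂, inferInstance, fun e v xs => (q₁ e v xs, q₂ e v xs), ?_⟩
    intro I E E' v v' xs xs' h
    exact imp_congr (h₁ I E E' v v' xs xs' (fun i => congrArg Prod.fst (h i)))
      (h₂ I E E' v v' xs xs' (fun i => congrArg Prod.snd (h i)))
  | @all m φ ih =>
    obtain ⟨Q, _, q, hq⟩ := ih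
    refine ⟨Set Q, inferInstance, fun e v xs =>
      {c | ∃ y : Set V, c = q e v (Fin.snoc (α := fun _ => Set V) xs y)}, ?_⟩
    have hsec : ∀ {I : Type} (i : I) (xs : Fin m → Set (I × V)) (y : Set (I × V)),
        (fun a => sec i (Fin.snoc (α := fun _ => Set (I × V)) xs y a)) =
          Fin.snoc (α := fun _ => Set V) (fun a => sec i (xs a)) (sec i y) := by
      intro I i xs y
      funext a
      induction a using Fin.lastCases with
      | last => simp
      | cast a => simp
    have key : ∀ (I : Type) (E E' : I → V → V → Prop) (v v' : α → Set (I × V))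
        (xs xs' : Fin m → Set (I × V)),
        (∀ i, {c | ∃ y : Set V, c = q (E i) (fun a => sec i (v a))
            (Fin.snoc (α := fun _ => Set V) (fun a => sec i (xs a)) y)} =
          {c | ∃ y : Set V, c = q (E' i) (fun a => sec i (v' a))
            (Fin.snoc (α := fun _ => Set V) (fun a => sec i (xs' a)) y)}) →
        (@BoundedFormula.Realize Lca (Set (I × V)) (psStructure (Esum E)) α m φ.all v xs →
          @BoundedFormula.Realize Lca (Set (I × V)) (psStructure (Esum E')) α m φ.all v' xs') := by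
      intro I E E' v v' xs xs' h hE y'
      have hy : ∀ i, ∃ y : Set V, q (E' i) (fun a => sec i (v' a))
          (Fin.snoc (α := fun _ => Set V) (fun a => sec i (xs' a)) (sec i y')) =
            q (E i) (fun a => sec i (v a))
              (Fin.snoc (α := fun _ => Set V) (fun a => sec i (xs a)) y) := by
        intro i
        have : q (E' i) (fun a => sec i (v' a))
            (Fin.snoc (α := fun _ => Set V) (fun a => sec i (xs' a)) (sec i y')) ∈
            {c | ∃ y : Set V, c = q (E' i) (fun a => sec i (v' a))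
              (Fin.snoc (α := fun _ => Set V) (fun a => sec i (xs' a)) y)} := ⟨_, rfl⟩
        rw [← h i] at this
        exact this
      choose y hy using hy
      let Y : Set (I × V) := {p | p.2 ∈ y p.1}
      have hY : ∀ i, sec i Y = y i := fun i => rfl
      refine (hq I E E' v v' _ _ ?_).mp (hE Y)
      intro i
      rw [hsec, hsec, hY]
      exact (hy i).symm
    intro I E E' v v' xs xs' h
    exact ⟨key I E E' v v' xs xs' h, key I E' E v' v xs' xs (fun i => (h i).symm)⟩

/-! ## The graphs -/

/-- Coloured pairs of natural numbers. -/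
abbrev V0 : Type := Fin 3 × ℕ × ℕ

/-- The oriented edges: `(c, x, y) → (c + 1, y, z)` for `x < y < z < N`. -/
def Edge (N : ℕ) (u v : V0) : Prop :=
  v.1 = u.1 + 1 ∧ u.2.1 < u.2.2 ∧ u.2.2 = v.2.1 ∧ v.2.1 < v.2.2 ∧ v.2.2 < N

/-- The reflexive and symmetric closure of the edge relation. -/
def H (N : ℕ) (u v : V0) : Prop := u = v ∨ Edge N u v ∨ Edge N v u

theorem H_refl (N : ℕ) (u : V0) : H N u u := Or.inl rfl

theorem H_symm (N : ℕ) (u v : V0) (h : H N u v) : H N v u := by
  rcases h with h | h | h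
  · exact Or.inl h.symm
  · exact Or.inr (Or.inr h)
  · exact Or.inr (Or.inl h)

/-- An edge from colour `c` to colour `c + 1`. -/
theorem H_step {N : ℕ} {u v : V0} (h : H N u v) (hc : v.1 = u.1 + 1) :
    u.2.1 < u.2.2 ∧ u.2.2 = v.2.1 ∧ v.2.1 < v.2.2 ∧ v.2.2 < N := by
  rcases h with h | h | h
  · exfalso
    subst h
    revert hc
    generalize u.1 = c
    revert c
    decide
  · exact ⟨h.2.1, h.2.2.1, h.2.2.2.1, h.2.2.2.2⟩
  · exfalso
    have h1 := h.1
    rw [hc] at h1
    revert h1
    generalize u.1 = c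
    revert c
    decide

/-- The colour classes. -/
def col {I : Type} (c : Fin 3) : Set (I × V0) := {p | p.2.1 = c}

/-- Membership of one of finitely many pieces in a clan. -/
theorem PClan.exists_mem {V : Type} {E : V → V → Prop} {Γ : Set (Set V)} (hΓ : PClan E Γ)
    {ι : Type} (T : Finset ι) (f : ι → Set V) {S : Set V} (hS : S ∈ Γ) (h : S ⊆ ⋃ t ∈ T, f t) :
    ∃ t ∈ T, f t ∈ Γ := by
  classical
  induction T using Finset.induction_on generalizing S with
  | empty =>
    simp only [Finset.notMem_empty, iUnion_of_empty, iUnion_empty] at h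
    exact absurd (hΓ.up S hS ∅ h) hΓ.empty_notMem
  | insert a T _ ih =>
    have h1 : f a ∪ (⋃ t ∈ T, f t) ∈ Γ := by
      apply hΓ.up S hS
      rw [Finset.set_biUnion_insert] at h
      exact h
    rcases hΓ.prime _ _ h1 with h2 | h2
    · exact ⟨a, Finset.mem_insert_self _ _, h2⟩
    · obtain ⟨t, ht, ht'⟩ := ih h2 subset_rfl
      exact ⟨t, Finset.mem_insert_of_mem ht, ht'⟩

/-- In a sum of boundedly many graphs `H N` there is no clan containing all colour classes. -/
theorem no_clan {I : Type} (ρ : I → ℕ) (M : ℕ) (hρ : ∀ i, ρ i ≤ M) (Γ : Set (Set (I × V0)))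
    (hΓ : PClan (Esum fun i => H (ρ i)) Γ) (h : ∀ c : Fin 3, col c ∈ Γ) : False := by
  classical
  -- a colour class is the union of finitely many fibres and of a rest
  have step : ∀ c : Fin 3, ∃ x y : ℕ, {p : I × V0 | p.2 = (c, x, y)} ∈ Γ := by
    intro c
    set R : Set (I × V0) := {p | p.2.1 = c ∧ ¬ (p.2.2.1 < M ∧ p.2.2.2 < M)} with hR
    set T : Finset (ℕ × ℕ) := Finset.range M ×ˢ Finset.range M with hT
    have h1 : R ∪ (⋃ t ∈ T, {p : I × V0 | p.2 = (c, t.1, t.2)}) ∈ Γ := by
      apply hΓ.up _ (h c)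
      rintro ⟨i, c', x, y⟩ hp
      change c' = c at hp
      subst hp
      by_cases hxy : x < M ∧ y < M
      · right
        simp only [mem_iUnion]
        exact ⟨(x, y), Finset.mem_product.mpr ⟨Finset.mem_range.mpr hxy.1,
          Finset.mem_range.mpr hxy.2⟩, rfl⟩
      · left
        exact ⟨rfl, hxy⟩
    rcases hΓ.prime _ _ h1 with h2 | h2
    · exfalso
      obtain ⟨⟨i, u⟩, hu, ⟨j, w⟩, hw, hij, huw⟩ := hΓ.contact R h2 (col (c + 1)) (h (c + 1))
      change i = j at hij
      subst hij
      change H (ρ i) u w at huw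
      obtain ⟨hu1, hu2⟩ := hu
      change w.1 = c + 1 at hw
      change u.1 = c at hu1
      have := H_step huw (by rw [hw, hu1])
      have hρi := hρ i
      apply hu2
      change u.2.1 < M ∧ u.2.2 < M
      omega
    · obtain ⟨t, ht, ht'⟩ := hΓ.exists_mem T _ h2 subset_rfl
      exact ⟨t.1, t.2, ht'⟩
  choose x y hxy using step
  have adj : ∀ c : Fin 3, x c < y c ∧ y c = x (c + 1) := by
    intro c
    obtain ⟨⟨i, u⟩, hu, ⟨j, w⟩, hw, hij, huw⟩ := hΓ.contact _ (hxy c) _ (hxy (c + 1))
    change i = j at hij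
    subst hij
    change u = (c, x c, y c) at hu
    change w = (c + 1, x (c + 1), y (c + 1)) at hw
    change H (ρ i) u w at huw
    subst hu hw
    have := H_step huw rfl
    exact ⟨this.1, this.2.1⟩
  have h0 := adj 0
  have h1 := adj 1
  have h2 := adj 2
  have e0 : (0 : Fin 3) + 1 = 1 := rfl
  have e1 : (1 : Fin 3) + 1 = 2 := rfl
  have e2 : (2 : Fin 3) + 1 = 0 := rfl
  rw [e0] at h0
  rw [e1] at h1
  rw [e2] at h2
  omega

/-- In the sum of all graphs `H N` there is a clan containing all colour classes. -/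
theorem exists_clan : ∃ Γ : CS (Esum fun i : ℕ => H i), ∀ c : Fin 3, col c ∈ Γ.1 := by
  classical
  set W : Ultrafilter ℕ := hyperfilter ℕ with hW
  have hgt : ∀ n : ℕ, ∀ᶠ m in (W : Filter ℕ), n < m := by
    intro n
    have : ∀ᶠ m in (cofinite : Filter ℕ), n < m := by
      rw [Nat.cofinite_eq_atTop]; exact eventually_gt_atTop n
    exact this.filter_mono hyperfilter_le_cofinite
  let P : Fin 3 → Set (ℕ × V0) → Prop := fun c S =>
    ∀ᶠ x in (W : Filter ℕ), ∀ᶠ y in (W : Filter ℕ), ∀ᶠ N in (W : Filter ℕ), (N, (c, x, y)) ∈ S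
  have hcontact : ∀ c S T, P c S → P (c + 1) T →
      ∃ a ∈ S, ∃ b ∈ T, Esum (fun i : ℕ => H i) a b := by
    intro c S T hS hT
    obtain ⟨x, hx⟩ := hS.exists
    obtain ⟨y, ⟨hy1, hy2⟩, hy3⟩ := ((hx.and hT).and (hgt x)).exists
    obtain ⟨z, hz1, hz2⟩ := (hy2.and (hgt y)).exists
    obtain ⟨N, ⟨hN1, hN2⟩, hN3⟩ := ((hy1.and hz1).and (hgt z)).exists
    exact ⟨_, hN1, _, hN2, rfl, Or.inr (Or.inl ⟨rfl, hy3, rfl, hz2, hN3⟩)⟩
  have hself : ∀ c S T, P c S → P c T → ∃ a ∈ S, ∃ b ∈ T, Esum (fun i : ℕ => H i) a b := by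
    intro c S T hS hT
    obtain ⟨x, hx, hx'⟩ := (hS.and hT).exists
    obtain ⟨y, hy, hy'⟩ := (hx.and hx').exists
    obtain ⟨N, hN, hN'⟩ := (hy.and hy').exists
    exact ⟨_, hN, _, hN', rfl, Or.inl rfl⟩
  refine ⟨⟨{S | ∃ c, P c S}, ?_⟩, ?_⟩
  · refine ⟨⟨0, ?_⟩, ?_, ?_, ?_⟩
    · exact Eventually.of_forall fun x => Eventually.of_forall fun y =>
        Eventually.of_forall fun N => trivial
    · rintro S ⟨c, hc⟩ T hST
      refine ⟨c, ?_⟩
      filter_upwards [hc] with x hx
      filter_upwards [hx] with y hy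
      filter_upwards [hy] with N hN
      exact hST hN
    · rintro S T ⟨c, hc⟩
      have h1 : P c S ∨ P c T := by
        have : (∀ᶠ x in (W : Filter ℕ),
            ((∀ᶠ y in (W : Filter ℕ), ∀ᶠ N in (W : Filter ℕ), (N, (c, x, y)) ∈ S) ∨
              (∀ᶠ y in (W : Filter ℕ), ∀ᶠ N in (W : Filter ℕ), (N, (c, x, y)) ∈ T))) := by
          filter_upwards [hc] with x hx
          rw [← Ultrafilter.eventually_or]
          filter_upwards [hx] with y hy
          rw [← Ultrafilter.eventually_or]
          filter_upwards [hy] with N hN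
          exact hN
        exact Ultrafilter.eventually_or.mp this
      rcases h1 with h | h
      · exact Or.inl ⟨c, h⟩
      · exact Or.inr ⟨c, h⟩
    · rintro S ⟨c, hc⟩ T ⟨d, hd⟩
      have hcd : d = c ∨ d = c + 1 ∨ c = d + 1 := by
        clear hc hd
        revert c d
        decide
      rcases hcd with rfl | rfl | rfl
      · exact hself d S T hc hd
      · exact hcontact c S T hc hd
      · obtain ⟨a, ha, b, hb, hab, hab'⟩ := hcontact d T S hd hc
        refine ⟨b, hb, a, ha, hab.symm, ?_⟩
        rw [← hab]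
        exact H_symm _ _ _ hab'
  · intro c
    exact ⟨c, Eventually.of_forall fun x => Eventually.of_forall fun y =>
      Eventually.of_forall fun N => rfl⟩

theorem Esum_refl {I : Type} (ρ : I → ℕ) (a : I × V0) : Esum (fun i => H (ρ i)) a a :=
  ⟨rfl, H_refl _ _⟩

theorem Esum_symm {I : Type} (ρ : I → ℕ) (a b : I × V0) (h : Esum (fun i => H (ρ i)) a b) :
    Esum (fun i => H (ρ i)) b a := by
  obtain ⟨h1, h2⟩ := h
  refine ⟨h1.symm, ?_⟩
  change H (ρ b.1) b.2 a.2
  rw [← h1]
  exact H_symm _ _ _ h2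

/-- **MP_2fbd40_lc, Q1: no.** For `n ≥ 3` and every first-order formula `φ(x_1, …, x_n)` of the
language of contact algebras there is a compact semiregular `T0` space, in which every clan of
regular closed sets is the clan of a point, such that `φ` does not define the `n`-ary contact in
that space. -/
theorem result (n : ℕ) (hn : 3 ≤ n) (φ : Lca.Formula (Fin n)) :
    ∃ (X : Type) (_ : TopologicalSpace X), CompactSpace X ∧ T0Space X ∧ IsSemiregular X ∧
      EveryClanIsPoint X ∧ ¬ DefinesContact n φ X := by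
  classical
  by_contra hcon
  push Not at hcon
  obtain ⟨Q, _, q, hq⟩ := composition (V := V0) φ
  let cl : Fin n → Fin 3 := fun i => if i.1 = 0 then 0 else if i.1 = 1 then 1 else 2
  let f : ℕ → Q := fun N => q (H N) (fun i => {u | u.1 = cl i}) (default : Fin 0 → Set V0)
  -- representatives
  have hrange : ∀ N, ∃ m, f m = f N := fun N => ⟨N, rfl⟩
  let g : Q → ℕ := fun c => if h : ∃ m, f m = c then h.choose else 0
  have hg : ∀ N, f (g (f N)) = f N := by
    intro N
    have h : ∃ m, f m = f N := ⟨N, rfl⟩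
    simp only [g, h, dif_pos]
    exact h.choose_spec
  obtain ⟨M, hM⟩ : ∃ M, ∀ c, g c ≤ M := by
    obtain ⟨M, hM⟩ := (Set.finite_range g).bddAbove
    exact ⟨M, fun c => hM ⟨c, rfl⟩⟩
  let ρ : ℕ → ℕ := fun N => g (f N)
  let S : Fin n → Set (ℕ × V0) := fun i => col (cl i)
  have hiff := hq ℕ (fun N => H N) (fun N => H (ρ N)) S S
      (@default _ Unique.instInhabited) (@default _ Unique.instInhabited) (by
    intro N
    have e1 : (fun a => sec N (S a)) = (fun i => ({u | u.1 = cl i} : Set V0)) := rfl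
    have e2 : (fun a : Fin 0 => sec N ((@default (Fin 0 → Set (ℕ × V0))
        Unique.instInhabited) a)) = default := Subsingleton.elim _ _
    rw [e1, e2]
    exact (hg N).symm)
  have h1 := hcon (CS (Esum fun N : ℕ => H N)) inferInstance inferInstance inferInstance
    (semiregular_CS (Esum_refl id) (Esum_symm id)) (everyClan_CS (Esum_refl id) (Esum_symm id))
  have h2 := hcon (CS (Esum fun N : ℕ => H (ρ N))) inferInstance inferInstance inferInstance
    (semiregular_CS (Esum_refl ρ) (Esum_symm ρ)) (everyClan_CS (Esum_refl ρ) (Esum_symm ρ))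
  have h3 := (defines_iff (Esum_refl id) (Esum_symm id) h1 S).mpr (by
    obtain ⟨Γ, hΓ⟩ := exists_clan
    exact ⟨Γ, fun i => hΓ (cl i)⟩)
  unfold Formula.Realize at h3
  have h4 := hiff.mp h3
  have h5 := (defines_iff (Esum_refl ρ) (Esum_symm ρ) h2 S)
  unfold Formula.Realize at h5
  obtain ⟨Γ, hΓ⟩ := h5.mp h4
  apply no_clan ρ M (fun i => hM _) Γ.1 Γ.2
  intro c
  have hc : ∃ i : Fin n, cl i = c := by
    fin_cases c
    · exact ⟨⟨0, by omega⟩, rfl⟩
    · exact ⟨⟨1, by omega⟩, rfl⟩
    · exact ⟨⟨2, by omega⟩, rfl⟩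
  obtain ⟨i, hi⟩ := hc
  rw [← hi]
  exact hΓ i

end Pool.Agent.Results.MP_2fbd40_lc.NaryContactUndefinable
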